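import Pool.Agent.H82.KL.Targets

/-!
# PKF: the Fourier transform of `exp (-2 π a |ξ|)` (subordination)
-/

set_option autoImplicit false

namespace Pool.Agent.H3.KL

open MeasureTheory Set FourierTransform
open Pool.Agent.H82.KL

/-- the function `s ↦ a s - r / s` -/
theorem cs_img {a r : ℝ} (ha : 0 < a) (hr : 0 < r) :
    (fun s : ℝ => a * s - r / s) '' Ioi 0 = univ := by
  refine eq_univ_of_forall fun t => ?_
  obtain ⟨D, hD⟩ : ∃ D : ℝ, D = Real.sqrt (t ^ 2 + 4 * a * r) := ⟨_, rfl⟩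
  have h0 : 0 ≤ t ^ 2 + 4 * a * r := by positivity
  have hD2 : D ^ 2 = t ^ 2 + 4 * a * r := by rw [hD, Real.sq_sqrt h0]
  have hD0 : 0 ≤ D := by rw [hD]; exact Real.sqrt_nonneg _
  have hlt : |t| < D := by
    have h1 : |t| ^ 2 < D ^ 2 := by
      rw [sq_abs, hD2]
      have : 0 < 4 * a * r := by positivity
      linarith
    exact lt_of_pow_lt_pow_left₀ 2 hD0 h1
  have hpos : 0 < t + D := by
    have := neg_abs_le t
    linarith
  refine ⟨(t + D) / (2 * a), div_pos hpos (by positivity), ?_⟩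
  show a * ((t + D) / (2 * a)) - r / ((t + D) / (2 * a)) = t
  field_simp
  nlinarith

theorem cs_inj {a r : ℝ} (ha : 0 < a) (hr : 0 < r) :
    InjOn (fun s : ℝ => a * s - r / s) (Ioi 0) := by
  have hm : StrictMonoOn (fun s : ℝ => a * s - r / s) (Ioi 0) := by
    intro s hs t ht hst
    have hs0 : 0 < s := hs
    have ht0 : 0 < t := ht
    have h1 : a * s < a * t := mul_lt_mul_of_pos_left hst ha
    have h2 : r / t < r / s := div_lt_div_of_pos_left hr hs0 hst
    show a * s - r / s < a * t - r / t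
    linarith
  exact hm.injOn

theorem cs_der {a r s : ℝ} (hs : s ∈ Ioi (0 : ℝ)) :
    HasDerivWithinAt (fun s : ℝ => a * s - r / s) (a + r / s ^ 2) (Ioi 0) s := by
  have hs0 : s ≠ 0 := (ne_of_gt hs)
  have h1 : HasDerivAt (fun s : ℝ => a * s) a s := by
    simpa using (hasDerivAt_id s).const_mul a
  have h2 : HasDerivAt (fun s : ℝ => r / s) (-(r / s ^ 2)) s := by
    have h3 := (hasDerivAt_inv hs0).const_mul r
    have e : (fun s : ℝ => r / s) = fun s => r * s⁻¹ := by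
      funext x
      rw [div_eq_mul_inv]
    have e2 : -(r / s ^ 2) = r * -(s ^ 2)⁻¹ := by ring
    rw [e, e2]
    exact h3
  have h4 := h1.sub h2
  rw [sub_neg_eq_add] at h4
  exact h4.hasDerivWithinAt

/-- the weight -/
noncomputable def ge (a r s : ℝ) : ℝ := Real.exp (-Real.pi * (a * s - r / s) ^ 2)

theorem ge_meas (a r : ℝ) : Measurable (ge a r) := by
  unfold ge
  fun_prop

theorem cs_one {a r : ℝ} (ha : 0 < a) (hr : 0 < r) :
    IntegrableOn (fun s => (a + r / s ^ 2) * ge a r s) (Ioi 0) ∧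
    ∫ s in Ioi (0 : ℝ), (a + r / s ^ 2) * ge a r s = 1 := by
  have hab : ∀ s ∈ Ioi (0 : ℝ), |a + r / s ^ 2| • Real.exp (-Real.pi * (a * s - r / s) ^ 2) =
      (a + r / s ^ 2) * ge a r s := by
    intro s hs
    have : 0 < a + r / s ^ 2 := by positivity
    rw [abs_of_pos this, smul_eq_mul]
    rfl
  have h1 := integral_image_eq_integral_abs_deriv_smul (measurableSet_Ioi (a := (0 : ℝ)))
    (fun s hs => cs_der (a := a) (r := r) hs) (cs_inj ha hr)
    (fun t => Real.exp (-Real.pi * t ^ 2))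
  have h2 := integrableOn_image_iff_integrableOn_abs_deriv_smul
    (measurableSet_Ioi (a := (0 : ℝ)))
    (fun s hs => cs_der (a := a) (r := r) hs) (cs_inj ha hr)
    (fun t => Real.exp (-Real.pi * t ^ 2))
  rw [cs_img ha hr] at h1 h2
  rw [Measure.restrict_univ, integral_gaussian, div_self Real.pi_ne_zero, Real.sqrt_one,
    setIntegral_congr_fun measurableSet_Ioi hab] at h1
  refine ⟨?_, h1.symm⟩
  have h3 := h2.1 (integrable_exp_neg_mul_sq Real.pi_pos).integrableOn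
  exact (integrableOn_congr_fun hab measurableSet_Ioi).1 h3

theorem cs_two {a r : ℝ} (ha : 0 < a) (hr : 0 < r) :
    ∫ s in Ioi (0 : ℝ), (r / s ^ 2) * ge a r s = a * ∫ s in Ioi (0 : ℝ), ge a r s := by
  have himg : (fun s : ℝ => r / (a * s)) '' Ioi 0 = Ioi 0 := by
    ext t
    constructor
    · rintro ⟨s, hs, rfl⟩
      have hs0 : 0 < s := hs
      exact div_pos hr (by positivity)
    · intro ht
      have ht0 : 0 < t := ht
      refine ⟨r / (a * t), div_pos hr (by positivity), ?_⟩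
      show r / (a * (r / (a * t))) = t
      field_simp
  have hinj : InjOn (fun s : ℝ => r / (a * s)) (Ioi 0) := by
    intro s hs t ht hst
    have hs0 : 0 < s := hs
    have ht0 : 0 < t := ht
    have h1 : r / (a * s) = r / (a * t) := hst
    rw [div_eq_div_iff (by positivity) (by positivity)] at h1
    have h2 : r * a * (t - s) = 0 := by linarith
    rcases mul_eq_zero.1 h2 with h3 | h3
    · exfalso
      have : 0 < r * a := by positivity
      linarith
    · linarith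
  have hder : ∀ s ∈ Ioi (0 : ℝ),
      HasDerivWithinAt (fun s : ℝ => r / (a * s)) (-(r / (a * s ^ 2))) (Ioi 0) s := by
    intro s hs
    have hs0 : s ≠ 0 := (ne_of_gt hs)
    have h3 := (hasDerivAt_inv hs0).const_mul (r / a)
    have e : (fun s : ℝ => r / (a * s)) = fun s => r / a * s⁻¹ := by
      funext x
      rw [← div_div, div_eq_mul_inv (r / a)]
    have e2 : -(r / (a * s ^ 2)) = r / a * -(s ^ 2)⁻¹ := by
      rw [← div_div]
      ring
    rw [e, e2]
    exact h3.hasDerivWithinAt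
  have h1 := integral_image_eq_integral_abs_deriv_smul (measurableSet_Ioi (a := (0 : ℝ)))
    hder hinj (ge a r)
  rw [himg] at h1
  rw [h1, ← integral_const_mul]
  refine setIntegral_congr_fun measurableSet_Ioi fun s hs => ?_
  have hs0 : 0 < s := hs
  have h4 : 0 < r / (a * s ^ 2) := by positivity
  show r / s ^ 2 * ge a r s = a * (|-(r / (a * s ^ 2))| • ge a r (r / (a * s)))
  have h5 : ge a r (r / (a * s)) = ge a r s := by
    unfold ge
    congr 2
    have e1 : a * (r / (a * s)) = r / s := by field_simp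
    have e2 : r / (r / (a * s)) = a * s := by field_simp
    rw [e1, e2]
    ring
  rw [abs_neg, abs_of_pos h4, h5, smul_eq_mul]
  field_simp

theorem cs_main {a r : ℝ} (ha : 0 < a) (hr : 0 < r) :
    ∫ s in Ioi (0 : ℝ), ge a r s = 1 / (2 * a) := by
  obtain ⟨h1, h2⟩ := cs_one ha hr
  have hI : IntegrableOn (ge a r) (Ioi 0) := by
    refine Integrable.mono' (h1.const_mul a⁻¹) (ge_meas a r).aestronglyMeasurable ?_
    refine (ae_restrict_iff' measurableSet_Ioi).2 (Filter.Eventually.of_forall fun s hs => ?_)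
    have hs0 : 0 < s := hs
    have h3 : 0 < ge a r s := Real.exp_pos _
    rw [Real.norm_of_nonneg h3.le]
    have h4 : 0 ≤ r / s ^ 2 := by positivity
    rw [← mul_assoc]
    have h5 : 1 ≤ a⁻¹ * (a + r / s ^ 2) := by
      rw [mul_add, inv_mul_cancel₀ ha.ne']
      have : 0 ≤ a⁻¹ * (r / s ^ 2) := by positivity
      linarith
    nlinarith
  have h6 : IntegrableOn (fun s => r / s ^ 2 * ge a r s) (Ioi 0) := by
    have h7 := h1.sub (hI.const_mul a)
    refine h7.congr (Filter.Eventually.of_forall fun s => ?_)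
    show (a + r / s ^ 2) * ge a r s - a * ge a r s = r / s ^ 2 * ge a r s
    ring
  have h8 : ∫ s in Ioi (0 : ℝ), (a + r / s ^ 2) * ge a r s =
      a * (∫ s in Ioi (0 : ℝ), ge a r s) + ∫ s in Ioi (0 : ℝ), r / s ^ 2 * ge a r s := by
    rw [← integral_const_mul, ← integral_add (hI.const_mul a) h6]
    refine integral_congr_ae (Filter.Eventually.of_forall fun s => ?_)
    show (a + r / s ^ 2) * ge a r s = a * ge a r s + r / s ^ 2 * ge a r s
    ring
  rw [h2, cs_two ha hr] at h8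
  field_simp
  linarith

/-- subordination -/
theorem subord {a r : ℝ} (ha : 0 < a) (hr : 0 ≤ r) :
    Real.exp (-(2 * Real.pi * a * r)) =
      ∫ s in Ioi (0 : ℝ), 2 * a * Real.exp (-Real.pi * (a ^ 2 * s ^ 2 + r ^ 2 / s ^ 2)) := by
  rcases hr.eq_or_lt with rfl | hr
  · have h1 : ∀ s ∈ Ioi (0 : ℝ), 2 * a * Real.exp (-Real.pi * (a ^ 2 * s ^ 2 + 0 ^ 2 / s ^ 2)) =
        2 * a * Real.exp (-(Real.pi * a ^ 2) * s ^ 2) := by
      intro s hs
      congr 2
      ring
    rw [setIntegral_congr_fun measurableSet_Ioi h1, integral_const_mul, integral_gaussian_Ioi,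
      mul_zero, neg_zero, Real.exp_zero]
    have h2 : Real.pi / (Real.pi * a ^ 2) = (1 / a) ^ 2 := by
      have := Real.pi_pos
      field_simp
    rw [h2, Real.sqrt_sq (by positivity)]
    field_simp
  · have h1 : ∀ s ∈ Ioi (0 : ℝ), 2 * a * Real.exp (-Real.pi * (a ^ 2 * s ^ 2 + r ^ 2 / s ^ 2)) =
        2 * a * Real.exp (-(2 * Real.pi * a * r)) * ge a r s := by
      intro s hs
      have hs0 : 0 < s := hs
      unfold ge
      rw [mul_assoc (2 * a), ← Real.exp_add]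
      congr 2
      field_simp
      ring
    rw [setIntegral_congr_fun measurableSet_Ioi h1, integral_const_mul, cs_main ha hr]
    field_simp

theorem norm_e (x : ℝ) : ‖e x‖ = 1 := by
  unfold e
  exact Complex.norm_exp_ofReal_mul_I _

theorem e_meas : Measurable e := by
  unfold e
  fun_prop

/-- the Gaussian integral -/
theorem gauss {d : ℕ} (y : EE d) {s : ℝ} (hs : 0 < s) :
    Integrable (fun ξ : EE d => e (inner ℝ y ξ) *
      ((Real.exp (-Real.pi * (‖ξ‖ ^ 2 / s ^ 2)) : ℝ) : ℂ)) ∧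
    ∫ ξ : EE d, e (inner ℝ y ξ) * ((Real.exp (-Real.pi * (‖ξ‖ ^ 2 / s ^ 2)) : ℝ) : ℂ) =
      ((s ^ (d : ℝ) * Real.exp (-Real.pi * (‖y‖ ^ 2 * s ^ 2)) : ℝ) : ℂ) := by
  have hpi := Real.pi_pos
  obtain ⟨b, hb⟩ : ∃ b : ℂ, b = ((Real.pi / s ^ 2 : ℝ) : ℂ) := ⟨_, rfl⟩
  have hb0 : 0 < b.re := by rw [hb, Complex.ofReal_re]; positivity
  have hfun : (fun ξ : EE d => e (inner ℝ y ξ) *
      ((Real.exp (-Real.pi * (‖ξ‖ ^ 2 / s ^ 2)) : ℝ) : ℂ)) = fun ξ : EE d =>
      Complex.exp (-b * ‖ξ‖ ^ 2 + (2 * Real.pi * Complex.I) * ((inner ℝ y ξ : ℝ) : ℂ)) := by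
    funext ξ
    unfold e
    rw [Complex.ofReal_exp, ← Complex.exp_add, hb]
    congr 1
    push_cast
    ring
  rw [hfun]
  refine ⟨GaussianFourier.integrable_cexp_neg_mul_sq_norm_add hb0 _ y, ?_⟩
  rw [GaussianFourier.integral_cexp_neg_mul_sq_norm_add hb0]
  have hs2 : (Real.pi : ℂ) / b = ((s ^ 2 : ℝ) : ℂ) := by
    rw [hb, ← Complex.ofReal_div]
    congr 1
    field_simp
  rw [hs2, finrank_euclideanSpace, Fintype.card_fin]
  have h1 : ((s ^ 2 : ℝ) : ℂ) ^ ((d : ℂ) / 2) = ((s ^ (d : ℝ) : ℝ) : ℂ) := by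
    have e1 : ((d : ℂ) / 2) = (((d : ℝ) / 2 : ℝ) : ℂ) := by push_cast; rfl
    rw [e1, ← Complex.ofReal_cpow (by positivity)]
    congr 1
    rw [← Real.rpow_natCast s 2, ← Real.rpow_mul hs.le]
    congr 1
    push_cast
    ring
  rw [h1, Complex.ofReal_mul, Complex.ofReal_exp]
  congr 2
  rw [hb]
  have hs0 : (s : ℂ) ≠ 0 := by exact_mod_cast hs.ne'
  have hp0 : (Real.pi : ℂ) ≠ 0 := by exact_mod_cast hpi.ne'
  push_cast
  field_simp
  have hI : Complex.I ^ 2 = -1 := Complex.I_sq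
  rw [hI]
  ring

/-- PKF -/
theorem pkf_main : T_PKF := by
  intro d
  obtain ⟨κ, hκ⟩ : ∃ κ : ℝ, κ = ((d : ℝ) + 1) / 2 := ⟨_, rfl⟩
  have hκ0 : 0 < κ := by rw [hκ]; positivity
  have hpi := Real.pi_pos
  refine ⟨Real.Gamma κ / Real.pi ^ κ, div_pos (Real.Gamma_pos_of_pos hκ0) (by positivity), ?_⟩
  intro a y ha
  rw [← hκ]
  -- the double integral
  obtain ⟨f, hf⟩ : ∃ f : EE d → ℝ → ℂ, f = fun ξ s => e (inner ℝ y ξ) *
    ((2 * a * Real.exp (-Real.pi * (a ^ 2 * s ^ 2 + ‖ξ‖ ^ 2 / s ^ 2)) : ℝ) : ℂ) := ⟨_, rfl⟩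
  have hfe : ∀ ξ s, f ξ s = ((2 * a * Real.exp (-(Real.pi * a ^ 2) * s ^ 2) : ℝ) : ℂ) *
      (e (inner ℝ y ξ) * ((Real.exp (-Real.pi * (‖ξ‖ ^ 2 / s ^ 2)) : ℝ) : ℂ)) := by
    intro ξ s
    rw [hf]
    have h1 : Real.exp (-Real.pi * (a ^ 2 * s ^ 2 + ‖ξ‖ ^ 2 / s ^ 2)) =
        Real.exp (-(Real.pi * a ^ 2) * s ^ 2) * Real.exp (-Real.pi * (‖ξ‖ ^ 2 / s ^ 2)) := by
      rw [← Real.exp_add]
      congr 1
      ring
    show e (inner ℝ y ξ) * ((2 * a * Real.exp (-Real.pi * (a ^ 2 * s ^ 2 + ‖ξ‖ ^ 2 / s ^ 2)) : ℝ)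
      : ℂ) = _
    rw [h1]
    push_cast
    ring
  have hint : ∀ b : ℝ, 0 < b → IntegrableOn (fun s : ℝ => s ^ (d : ℝ) * Real.exp (-b * s ^ 2))
      (Ioi 0) := fun b hb => integrableOn_rpow_mul_exp_neg_mul_sq hb (by
        have : (0 : ℝ) ≤ d := Nat.cast_nonneg d
        linarith)
  have hF : Integrable (Function.uncurry f) (volume.prod (volume.restrict (Ioi (0 : ℝ)))) := by
    have hmeas : AEStronglyMeasurable (Function.uncurry f)
        (volume.prod (volume.restrict (Ioi (0 : ℝ)))) := by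
      refine Measurable.aestronglyMeasurable ?_
      rw [hf]
      unfold Function.uncurry
      have m1 : Measurable fun p : EE d × ℝ => e (inner ℝ y p.1) := by
        refine e_meas.comp ?_
        exact (continuous_const.inner continuous_fst).measurable
      have m2 : Measurable fun p : EE d × ℝ =>
          ((2 * a * Real.exp (-Real.pi * (a ^ 2 * p.2 ^ 2 + ‖p.1‖ ^ 2 / p.2 ^ 2)) : ℝ) : ℂ) := by
        refine Complex.measurable_ofReal.comp ?_
        fun_prop
      exact m1.mul m2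
    refine (integrable_prod_iff' hmeas).2 ⟨?_, ?_⟩
    · refine (ae_restrict_iff' measurableSet_Ioi).2 (Filter.Eventually.of_forall fun s hs => ?_)
      have h1 : (fun ξ => Function.uncurry f (ξ, s)) = fun ξ =>
          ((2 * a * Real.exp (-(Real.pi * a ^ 2) * s ^ 2) : ℝ) : ℂ) *
          (e (inner ℝ y ξ) * ((Real.exp (-Real.pi * (‖ξ‖ ^ 2 / s ^ 2)) : ℝ) : ℂ)) := by
        funext ξ
        exact hfe ξ s
      rw [h1]
      exact ((gauss y (show (0 : ℝ) < s from hs)).1).const_mul _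
    · have h1 : ∀ s ∈ Ioi (0 : ℝ), ∫ ξ : EE d, ‖Function.uncurry f (ξ, s)‖ =
          2 * a * (s ^ (d : ℝ) * Real.exp (-(Real.pi * a ^ 2) * s ^ 2)) := by
        intro s hs
        have hs0 : 0 < s := hs
        have h2 : ∀ ξ : EE d, ‖Function.uncurry f (ξ, s)‖ =
            2 * a * Real.exp (-(Real.pi * a ^ 2) * s ^ 2) *
              Real.exp (-Real.pi * (‖ξ‖ ^ 2 / s ^ 2)) := by
          intro ξ
          show ‖f ξ s‖ = _
          rw [hfe, norm_mul, norm_mul, norm_e, Complex.norm_real, Complex.norm_real, one_mul,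
            Real.norm_of_nonneg (by positivity), Real.norm_of_nonneg (by positivity)]
        have h3 := (gauss (0 : EE d) hs0).2
        have h4 : ∫ ξ : EE d, Real.exp (-Real.pi * (‖ξ‖ ^ 2 / s ^ 2)) = s ^ (d : ℝ) := by
          have h5 : (((∫ ξ : EE d, Real.exp (-Real.pi * (‖ξ‖ ^ 2 / s ^ 2)) : ℝ)) : ℂ) =
              ((s ^ (d : ℝ) : ℝ) : ℂ) := by
            rw [← integral_complex_ofReal]
            have h6 : ∀ ξ : EE d, e (inner ℝ (0 : EE d) ξ) *
                ((Real.exp (-Real.pi * (‖ξ‖ ^ 2 / s ^ 2)) : ℝ) : ℂ) =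
                ((Real.exp (-Real.pi * (‖ξ‖ ^ 2 / s ^ 2)) : ℝ) : ℂ) := by
              intro ξ
              rw [inner_zero_left]
              unfold e
              simp
            rw [integral_congr_ae (Filter.Eventually.of_forall h6)] at h3
            rw [h3]
            simp
          exact_mod_cast h5
        rw [integral_congr_ae (Filter.Eventually.of_forall h2), integral_const_mul, h4]
        ring
      have h2 : IntegrableOn (fun s => 2 * a * (s ^ (d : ℝ) *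
          Real.exp (-(Real.pi * a ^ 2) * s ^ 2))) (Ioi 0) :=
        (hint (Real.pi * a ^ 2) (by positivity)).const_mul _
      exact (integrableOn_congr_fun h1 measurableSet_Ioi).2 h2
  have hsw := integral_integral_swap hF
  have hL : ∀ ξ : EE d, ∫ s in Ioi (0 : ℝ), f ξ s = e (inner ℝ y ξ) *
      ((Real.exp (-(2 * Real.pi * a * ‖ξ‖)) : ℝ) : ℂ) := by
    intro ξ
    rw [subord ha (norm_nonneg ξ), hf]
    show ∫ s in Ioi (0 : ℝ), e (inner ℝ y ξ) *
      ((2 * a * Real.exp (-Real.pi * (a ^ 2 * s ^ 2 + ‖ξ‖ ^ 2 / s ^ 2)) : ℝ) : ℂ) = _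
    rw [integral_const_mul, integral_complex_ofReal]
  rw [← integral_congr_ae (Filter.Eventually.of_forall hL), hsw]
  have hR : ∀ s ∈ Ioi (0 : ℝ), ∫ ξ : EE d, f ξ s =
      ((2 * a * (s ^ (d : ℝ) * Real.exp (-(Real.pi * (a ^ 2 + ‖y‖ ^ 2)) * s ^ (2 : ℝ))) : ℝ) : ℂ)
      := by
    intro s hs
    have h1 : (fun ξ => f ξ s) = fun ξ =>
        ((2 * a * Real.exp (-(Real.pi * a ^ 2) * s ^ 2) : ℝ) : ℂ) *
        (e (inner ℝ y ξ) * ((Real.exp (-Real.pi * (‖ξ‖ ^ 2 / s ^ 2)) : ℝ) : ℂ)) := by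
      funext ξ
      exact hfe ξ s
    rw [h1, integral_const_mul, (gauss y (show (0 : ℝ) < s from hs)).2, ← Complex.ofReal_mul]
    congr 1
    have h2 : Real.exp (-(Real.pi * (a ^ 2 + ‖y‖ ^ 2)) * s ^ (2 : ℝ)) =
        Real.exp (-(Real.pi * a ^ 2) * s ^ 2) * Real.exp (-Real.pi * (‖y‖ ^ 2 * s ^ 2)) := by
      rw [← Real.exp_add, Real.rpow_two]
      congr 1
      ring
    rw [h2]
    ring
  rw [setIntegral_congr_fun measurableSet_Ioi hR, integral_complex_ofReal, integral_const_mul]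
  have hB : 0 < Real.pi * (a ^ 2 + ‖y‖ ^ 2) := by positivity
  rw [integral_rpow_mul_exp_neg_mul_rpow two_pos (by
    have : (0 : ℝ) ≤ d := Nat.cast_nonneg d
    linarith) hB, ← hκ]
  congr 1
  have h1 : -((d : ℝ) + 1) / 2 = -κ := by rw [hκ]; ring
  rw [h1, Real.rpow_neg hB.le, Real.mul_rpow hpi.le (by positivity)]
  field_simp

end Pool.Agent.H3.KL
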